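import Pool.Agent.W289.CG.Core3

/-!
# The main theorem for given data
-/

set_option autoImplicit false

namespace Pool.Agent.W289.CG

open Polynomial NumberField nonZeroDivisors

theorem rank_eq (K : Type) [Field K] [NumberField K] :
    Units.rank K + 1 = InfinitePlace.nrRealPlaces K + InfinitePlace.nrComplexPlaces K := by
  have h1 := InfinitePlace.card_eq_nrRealPlaces_add_nrComplexPlaces K
  have h2 : Units.rank K = Fintype.card (InfinitePlace K) - 1 := rfl
  have h3 : 0 < Fintype.card (InfinitePlace K) := Fintype.card_pos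
  omega

theorem main_of (hCls : TaskCls) (hVal : TaskVal) (hLoc : TaskLoc) (hEmb : TaskEmb) (hMu : TaskMu)
    (hRed : TaskRed) (hWeil : TaskWeil) (hRoot : TaskRoot) (hSt : TaskSt) (hIrr : TaskIrr)
    (hDisc : TaskDisc) (hPl : TaskPl) (hR1 : TaskReal1) (hR2 : TaskReal2) : Main := by
  intro n k hn hk hD m N hm
  obtain ⟨D⟩ := hD
  have hcR : (0 : ℝ) < D.c := by exact_mod_cast D.hc
  refine ⟨?_, ?_⟩
  · obtain ⟨B, hB⟩ := hR1 n D.a (by omega) D.ha
    set ε : ℝ := D.c / (|B| + 1) with hε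
    have hB1 : 0 < |B| + 1 := by positivity
    have hε0 : 0 < ε := div_pos hcR hB1
    obtain ⟨y, hy1, hym⟩ : ∃ y : ℝ, 1 < y ∧ y ^ m < 1 + ε := by
      have h1 : Filter.Tendsto (fun y : ℝ => y ^ m) (nhdsWithin 1 (Set.Ioi 1)) (nhds (1 ^ m)) :=
        ((continuous_pow m).tendsto 1).mono_left nhdsWithin_le_nhds
      have h2 : ∀ᶠ y : ℝ in nhdsWithin 1 (Set.Ioi 1), y ^ m < 1 + ε :=
        h1.eventually (gt_mem_nhds (by rw [one_pow]; linarith))
      have h3 : ∀ᶠ y : ℝ in nhdsWithin 1 (Set.Ioi 1), 1 < y := self_mem_nhdsWithin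
      obtain ⟨y, h4, h5⟩ := (h3.and h2).exists
      exact ⟨y, h4, h5⟩
    obtain ⟨s, t, K, hK1, hK2, hs, hxs, hys, hfr, hdisc, hreal, hcl⟩ := core hCls hVal hLoc hEmb hMu
      hRed hWeil hRoot hSt hIrr hDisc hPl hn hk D m N hm 1 y le_rfl hy1
    have hsR : (0 : ℝ) < s := by exact_mod_cast hs
    have htR : (s : ℝ) < t := by linarith
    have h1 : (s : ℝ) ^ m < (t : ℝ) ^ m := pow_lt_pow_left₀ htR hsR.le (by omega)
    have h2 : (t : ℝ) ^ m < (1 + ε) * (s : ℝ) ^ m := by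
      calc (t : ℝ) ^ m < (y * s) ^ m := pow_lt_pow_left₀ hys (by linarith) (by omega)
        _ = y ^ m * (s : ℝ) ^ m := mul_pow _ _ _
        _ ≤ (1 + ε) * (s : ℝ) ^ m := mul_le_mul_of_nonneg_right hym.le (by positivity)
    have hr : InfinitePlace.nrRealPlaces K = n % 2 := by
      rw [hreal]
      apply hB
      rw [lt_div_iff₀ (by linarith)]
      have h3 : (t : ℝ) ^ m - (s : ℝ) ^ m < ε * (s : ℝ) ^ m := by linarith
      have h4 : (|B| + 1) * ((t : ℝ) ^ m - (s : ℝ) ^ m) < (|B| + 1) * (ε * (s : ℝ) ^ m) :=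
        mul_lt_mul_of_pos_left h3 hB1
      have h5 : (|B| + 1) * (ε * (s : ℝ) ^ m) = (s : ℝ) ^ m * D.c := by
        rw [hε]; field_simp
      have h6 : B * ((t : ℝ) ^ m - (s : ℝ) ^ m) ≤ (|B| + 1) * ((t : ℝ) ^ m - (s : ℝ) ^ m) :=
        mul_le_mul_of_nonneg_right (by linarith [le_abs_self B]) (by linarith)
      linarith
    refine ⟨K, hK1, hK2, hfr, hr, hdisc, ?_⟩
    apply hcl
    have h7 := rank_eq K
    have h8 := InfinitePlace.card_add_two_mul_card_eq_rank K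
    omega
  · have hx1 : (1 : ℝ) ≤ 1 + D.c * 3 ^ n := by
      have : (0 : ℝ) < D.c * 3 ^ n := by positivity
      linarith
    obtain ⟨s, t, K, hK1, hK2, hs, hxs, hys, hfr, hdisc, hreal, hcl⟩ := core hCls hVal hLoc hEmb hMu
      hRed hWeil hRoot hSt hIrr hDisc hPl hn hk D m N hm (1 + D.c * 3 ^ n) (1 + D.c * 3 ^ n + 1)
      hx1 (by linarith)
    have hsR : (0 : ℝ) < s := by exact_mod_cast hs
    have hpos : 0 < (D.c : ℝ) * 3 ^ n * (s : ℝ) ^ m := by positivity
    have h2 : (1 + D.c * 3 ^ n) * (s : ℝ) ^ m < (t : ℝ) ^ m := by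
      calc (1 + D.c * 3 ^ n) * (s : ℝ) ^ m ≤ (1 + D.c * 3 ^ n) ^ m * (s : ℝ) ^ m :=
            mul_le_mul_of_nonneg_right (le_self_pow₀ hx1 (by omega)) (by positivity)
        _ = ((1 + D.c * 3 ^ n) * s) ^ m := (mul_pow _ _ _).symm
        _ < (t : ℝ) ^ m := pow_lt_pow_left₀ hxs (by positivity) (by omega)
    have h3 : 0 < (t : ℝ) ^ m - (s : ℝ) ^ m := by nlinarith
    have hr : InfinitePlace.nrRealPlaces K = n := by
      rw [hreal]
      apply hR2 n D.a (by omega) D.ha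
      · exact div_pos (by positivity) h3
      · rw [div_mul_eq_mul_div, div_lt_one h3]
        nlinarith
    refine ⟨K, hK1, hK2, hfr, hr, hdisc, ?_⟩
    apply hcl
    have h7 := rank_eq K
    have h8 := InfinitePlace.card_add_two_mul_card_eq_rank K
    omega

end Pool.Agent.W289.CG
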