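import Pool.Agent.W289.CG.Ind

/-!
# The construction
-/

set_option autoImplicit false

namespace Pool.Agent.W289.CG

open Polynomial NumberField nonZeroDivisors

theorem exists_field (f : ℚ[X]) (hf : Irreducible f) :
    ∃ (K : Type) (_ : Field K) (_ : NumberField K) (θ : K), Module.finrank ℚ K = f.natDegree ∧
      aeval θ f = 0 ∧ IntermediateField.adjoin ℚ {θ} = ⊤ := by
  have : Fact (Irreducible f) := ⟨hf⟩
  have hfin : FiniteDimensional ℚ (AdjoinRoot f) := (AdjoinRoot.powerBasis hf.ne_zero).finite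
  have hK : NumberField (AdjoinRoot f) := {
    to_charZero := algebraRat.charZero _
    to_finiteDimensional := hfin }
  refine ⟨AdjoinRoot f, inferInstance, hK, AdjoinRoot.root f, ?_, ?_, ?_⟩
  · rw [(AdjoinRoot.powerBasis hf.ne_zero).finrank, AdjoinRoot.powerBasis_dim]
  · have h1 := AdjoinRoot.eval₂_root f
    rw [aeval_def]
    have h2 : (algebraMap ℚ (AdjoinRoot f)) = AdjoinRoot.of f := Subsingleton.elim _ _
    rw [h2]
    exact h1
  · apply IntermediateField.adjoin_eq_top_of_algebra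
    exact AdjoinRoot.adjoinRoot_eq_top

/-- the exact power of `q` in `t ^ m - s ^ m` -/
theorem exact_power {q m : ℕ} (hq : q.Prime) (hqm : ¬ q ∣ m) {s t : ℤ}
    (hs : (q : ℤ) ∣ s - 1) (ht : (q : ℤ) ^ 2 ∣ t - s - q) :
    (q : ℤ) ∣ t ^ m - s ^ m ∧ ¬ (q : ℤ) ^ 2 ∣ t ^ m - s ^ m := by
  have hqp : Prime (q : ℤ) := Nat.prime_iff_prime_int.1 hq
  obtain ⟨w, hw⟩ := ht
  have h1 : t - s = q * (1 + q * w) := by linear_combination hw
  have h2 := geom_sum₂_mul t s m
  have h3 : ¬ (q : ℤ) ∣ ∑ i ∈ Finset.range m, t ^ i * s ^ (m - 1 - i) := by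
    rw [← zmod_iff]
    push_cast
    have hs1 : (s : ZMod q) = 1 := by
      have := (zmod_iff (q := q) _).2 hs
      push_cast at this
      exact sub_eq_zero.1 this
    have ht1 : (t : ZMod q) = 1 := by
      have h4 : ((t - s : ℤ) : ZMod q) = 0 := by
        rw [zmod_iff, h1]
        exact Dvd.intro _ rfl
      push_cast at h4
      rw [sub_eq_zero.1 h4, hs1]
    rw [hs1, ht1]
    simp only [one_pow, mul_one, Finset.sum_const, Finset.card_range, nsmul_eq_mul]
    rw [ZMod.natCast_eq_zero_iff]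
    exact hqm
  refine ⟨?_, ?_⟩
  · rw [← h2, h1]
    exact Dvd.intro_left (Finset.sum (Finset.range m) (fun i => t ^ i * s ^ (m - 1 - i)) *
      (1 + q * w)) (by ring)
  · intro h
    rw [← h2, h1] at h
    have h4 : (q : ℤ) ∣ (∑ i ∈ Finset.range m, t ^ i * s ^ (m - 1 - i)) * (1 + q * w) := by
      obtain ⟨v, hv⟩ := h
      refine ⟨v, ?_⟩
      have hq0 : (q : ℤ) ≠ 0 := hqp.ne_zero
      apply mul_left_cancel₀ hq0
      linear_combination hv
    rcases hqp.dvd_or_dvd h4 with h5 | h5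
    · exact h3 h5
    · have h6 : (q : ℤ) ∣ 1 := by
        have := h5.sub (Dvd.intro w rfl : (q : ℤ) ∣ q * w)
        simpa using this
      exact hqp.not_isUnit (isUnit_of_dvd_one h6)

end Pool.Agent.W289.CG
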