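import Pool.Agent.W289.CG.Core

/-!
# The construction, continued
-/

set_option autoImplicit false

namespace Pool.Agent.W289.CG

open Polynomial NumberField nonZeroDivisors

/-- the congruence conditions on `s` and `t` -/
structure Good {n k : ℕ} (D : Dat n k) (m N : ℕ) (q₀ q₁ : ℕ) (s t : ℤ) : Prop where
  hq₀ : q₀.Prime
  hN : N < q₀
  hc : ¬ (q₀ : ℤ) ∣ D.c
  hm : ¬ q₀ ∣ m
  hs₀ : (q₀ : ℤ) ∣ s - 1
  ht₀ : (q₀ : ℤ) ^ 2 ∣ t - s - q₀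
  hq₁ : q₁.Prime
  hqm : 4 * m ∣ q₁ + 1
  hqm' : m < q₁
  hq4 : 4 < q₁
  hc₁ : ¬ (q₁ : ℤ) ∣ D.c
  hbad : ¬ (q₁ : ℤ) ∣ D.bad
  hs₁ : (q₁ : ℤ) ∣ s - 1
  ht₁ : (q₁ : ℤ) ∣ t
  hsc : D.c ∣ s - 1
  htc : D.c ∣ t - 1
  hsb : D.bad ∣ s - 1
  htb : D.bad ∣ t - 1
  tests : ∀ ℓ : ℕ, ℓ.Prime → ℓ ∣ m → ∀ h : Fin n ⊕ Fin k → ℕ, (∀ p, h p < ℓ) →
    (∃ p, ¬ ℓ ∣ h p) → ∃ q : ℕ, q.Prime ∧ PT D m (ℓ, h) q s t

theorem exists_good (hW : TaskWeil) (hR : TaskRoot) {n k : ℕ} (D : Dat n k) (m N : ℕ)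
    (hn : 1 ≤ n) (hk : 1 ≤ k) (hm : 2 ≤ m) :
    ∃ (q₀ q₁ : ℕ) (M s₀ t₀ : ℤ), 0 < M ∧ IsCoprime s₀ M ∧
      ∀ s t : ℤ, M ∣ s - s₀ → M ∣ t - t₀ → Good D m N q₀ q₁ s t := by
  classical
  set Z : ℤ := D.c * |D.bad| with hZ
  have hZ0 : 0 < Z := mul_pos D.hc (abs_pos.2 (bad_ne D))
  obtain ⟨q₀, hq₀N, hq₀⟩ := Nat.exists_infinite_primes (N + Z.natAbs + m + 1)
  have : NeZero (4 * m) := ⟨by omega⟩
  obtain ⟨q₁, hq₁N, hq₁, hq₁m⟩ := Nat.forall_exists_prime_gt_and_eq_mod (q := 4 * m) (a := -1)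
    (isUnit_one.neg) (q₀ + Z.natAbs + m + 4)
  have hd : ∀ q : ℕ, Z.natAbs < q → ¬ (q : ℤ) ∣ Z := fun q hq => not_dvd_of_lt hZ0.ne' hq
  have hc : ∀ q : ℕ, Z.natAbs < q → ¬ (q : ℤ) ∣ D.c := fun q hq h =>
    hd q hq (Dvd.dvd.mul_right h _)
  have hbad : ∀ q : ℕ, Z.natAbs < q → ¬ (q : ℤ) ∣ D.bad := fun q hq h =>
    hd q hq (Dvd.dvd.mul_left ((dvd_abs _ _).2 h) _)
  -- first two moduli
  obtain ⟨s₁, t₁, a1, a2, a3, a4, a5⟩ := crt2 (M := Z) (M' := (q₀ : ℤ) ^ 2) (s := 1) (t := 1)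
    (s' := 1) (t' := 1 + q₀) ((coprime_of_prime hq₀ (hd q₀ (by omega))).pow_right)
    isCoprime_one_left isCoprime_one_left
  have hq01 : ¬ (q₁ : ℤ) ∣ Z * (q₀ : ℤ) ^ 2 := by
    have hp : Prime (q₁ : ℤ) := Nat.prime_iff_prime_int.1 hq₁
    intro h
    rcases hp.dvd_or_dvd h with h | h
    · exact hd q₁ (by omega) h
    · have h1 := hp.dvd_of_dvd_pow h
      have h2 : q₁ ∣ q₀ := by exact_mod_cast h1
      have := Nat.le_of_dvd hq₀.pos h2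
      omega
  obtain ⟨s₂, t₂, b1, b2, b3, b4, b5⟩ := crt2 (M := Z * (q₀ : ℤ) ^ 2) (M' := (q₁ : ℤ)) (s := s₁)
    (t := t₁) (s' := 1) (t' := 0) (coprime_of_prime hq₁ hq01) a5 isCoprime_one_left
  -- the tests
  set T : List (ℕ × (Fin n ⊕ Fin k → ℕ)) :=
    ((m.primeFactors ×ˢ Fintype.piFinset (fun _ : Fin n ⊕ Fin k => Finset.range m)).filter
      (fun τ => ∃ p, ¬ τ.1 ∣ τ.2 p)).toList with hT
  have hTm : ∀ τ, τ ∈ T ↔ (τ.1 ∈ m.primeFactors ∧ ∀ p, τ.2 p < m) ∧ ∃ p, ¬ τ.1 ∣ τ.2 p := by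
    intro τ
    simp [hT]
  obtain ⟨M, s₀, t₀, hM, hMM, hcop, hs, ht, hall⟩ := crt_tests (PT D m) PT.congr T
    (by
      intro τ hτ Q
      rw [hTm] at hτ
      exact exists_test hW hR D m hn hk hm τ (Nat.prime_of_mem_primeFactors hτ.1.1)
        (Nat.dvd_of_mem_primeFactors hτ.1.1) hτ.2 Q)
    (Z * (q₀ : ℤ) ^ 2 * q₁) s₂ t₂
    (by
      have h1 : (0 : ℤ) < q₀ := by exact_mod_cast hq₀.pos
      have h2 : (0 : ℤ) < q₁ := by exact_mod_cast hq₁.pos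
      positivity) b5
  refine ⟨q₀, q₁, M, s₀, t₀, hM, hcop, fun s t hs' ht' => ?_⟩
  -- congruences of `s` and `t`
  have e1 : Z * (q₀ : ℤ) ^ 2 * q₁ ∣ s - s₂ := by
    have := (hMM.trans hs').add hs
    simpa using this
  have e2 : Z * (q₀ : ℤ) ^ 2 * q₁ ∣ t - t₂ := by
    have := (hMM.trans ht').add ht
    simpa using this
  have f1 : Z * (q₀ : ℤ) ^ 2 ∣ s - s₁ := by
    have := ((Dvd.intro _ rfl).trans e1).add b1
    simpa using this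
  have f2 : Z * (q₀ : ℤ) ^ 2 ∣ t - t₁ := by
    have := ((Dvd.intro _ rfl).trans e2).add b2
    simpa using this
  have g1 : Z ∣ s - 1 := by
    have := ((Dvd.intro _ rfl).trans f1).add a1
    simpa using this
  have g2 : Z ∣ t - 1 := by
    have := ((Dvd.intro _ rfl).trans f2).add a2
    simpa using this
  have g3 : (q₀ : ℤ) ^ 2 ∣ s - 1 := by
    have := ((Dvd.intro_left _ rfl).trans f1).add a3
    simpa using this
  have g4 : (q₀ : ℤ) ^ 2 ∣ t - (1 + q₀) := by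
    have := ((Dvd.intro_left _ rfl).trans f2).add a4
    simpa using this
  have g5 : (q₁ : ℤ) ∣ s - 1 := by
    have := ((Dvd.intro_left _ rfl).trans e1).add b3
    simpa using this
  have g6 : (q₁ : ℤ) ∣ t := by
    have := ((Dvd.intro_left _ rfl).trans e2).add b4
    simpa using this
  have hZc : D.c ∣ Z := Dvd.intro _ rfl
  have hZb : D.bad ∣ Z := (dvd_abs _ _).2 dvd_rfl |>.mul_left _
  refine ⟨hq₀, by omega, hc _ (by omega), ?_, (Dvd.intro_left _ (by ring)).trans g3, ?_, hq₁, ?_,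
    by omega, by omega, hc _ (by omega), hbad _ (by omega), g5, g6, hZc.trans g1, hZc.trans g2,
    hZb.trans g1, hZb.trans g2, ?_⟩
  · intro h
    have := Nat.le_of_dvd (by omega) h
    omega
  · have := g4.sub g3
    have h : t - s - q₀ = t - (1 + q₀) - (s - 1) := by ring
    rw [h]; exact this
  · have h1 : ((q₁ + 1 : ℕ) : ZMod (4 * m)) = 0 := by
      push_cast
      rw [hq₁m]
      ring
    exact (ZMod.natCast_eq_zero_iff _ _).1 h1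
  · intro ℓ hℓ hℓm h hlt hex
    have hle : ℓ ≤ m := Nat.le_of_dvd (by omega) hℓm
    obtain ⟨q, hq, hqM, hP⟩ := hall (ℓ, h) ((hTm _).2 ⟨⟨Nat.mem_primeFactors.2 ⟨hℓ, hℓm,
      by omega⟩, fun p => (hlt p).trans_le hle⟩, hex⟩)
    exact ⟨q, hq, hP.congr _ _ _ _ _ _ (hqM.trans hs') (hqM.trans ht')⟩

end Pool.Agent.W289.CG
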