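import Pool.Agent.W289.CG.Core2

/-!
# The fields
-/

set_option autoImplicit false

namespace Pool.Agent.W289.CG

open Polynomial NumberField nonZeroDivisors

theorem good_arith {n k : ℕ} {D : Dat n k} {m N q₀ q₁ : ℕ} {s t : ℤ} (hG : Good D m N q₀ q₁ s t)
    (hm : 2 ≤ m) (hs : 0 < s) (hst : s < t) (hcop : IsCoprime s t) :
    ∃ L : ℤ, 0 < L ∧ L * D.c = t ^ m - s ^ m ∧ IsCoprime L (s ^ m) ∧ (q₀ : ℤ) ∣ L ∧
      ¬ (q₀ : ℤ) ^ 2 ∣ L ∧ ¬ (q₀ : ℤ) ∣ s ^ m ∧ IsCoprime s D.bad ∧ IsCoprime t D.bad := by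
  have hc : D.c ∣ t ^ m - s ^ m := by
    refine Dvd.dvd.trans ?_ (sub_dvd_pow_sub_pow t s m)
    have := hG.htc.sub hG.hsc
    have h : t - s = t - 1 - (s - 1) := by ring
    rw [h]; exact this
  obtain ⟨L, hL⟩ := hc
  have hpow : s ^ m < t ^ m := pow_lt_pow_left₀ hst hs.le (by omega)
  have hLpos : 0 < L := by
    have h1 : 0 < D.c * L := by rw [← hL]; linarith
    exact pos_of_mul_pos_right h1 D.hc.le |> fun h => h
  have hcop2 : IsCoprime (t ^ m - s ^ m) (s ^ m) := by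
    have h1 : IsCoprime (t ^ m) (s ^ m) := (hcop.symm).pow
    have h2 : t ^ m - s ^ m = t ^ m + s ^ m * (-1) := by ring
    rw [h2]
    exact IsCoprime.add_mul_left_left h1 _
  have hex := exact_power hG.hq₀ hG.hm hG.hs₀ hG.ht₀
  have hp : Prime (q₀ : ℤ) := Nat.prime_iff_prime_int.1 hG.hq₀
  have hone : ∀ x d : ℤ, d ∣ x - 1 → IsCoprime x d := by
    intro x d ⟨w, hw⟩
    exact ⟨1, -w, by linear_combination hw⟩
  refine ⟨L, hLpos, by rw [hL]; ring, ?_, ?_, ?_, ?_, hone _ _ hG.hsb, hone _ _ hG.htb⟩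
  · rw [hL] at hcop2
    exact IsCoprime.of_mul_left_right hcop2
  · have h1 := hex.1
    rw [hL] at h1
    exact (hp.dvd_or_dvd h1).resolve_left hG.hc
  · intro h
    exact hex.2 (by rw [hL]; exact Dvd.dvd.mul_left h _)
  · intro h
    have h1 := hp.dvd_of_dvd_pow h
    have h2 : (q₀ : ℤ) ∣ 1 := by
      have := h1.sub hG.hs₀
      simpa using this
    exact hp.not_isUnit (isUnit_of_dvd_one h2)

theorem eval_F {n : ℕ} (a : Fin n → ℤ) (L S : ℤ) {R : Type} [CommRing R] [Algebra ℚ R] (x : R) :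
    aeval x ((C L * pA a + C S).map (Int.castRingHom ℚ)) =
      (L : R) * ∏ i, (x - (a i : R)) + (S : R) := by
  rw [Polynomial.map_add, Polynomial.map_mul, pA_map, map_C, map_C, map_add, map_mul, aeval_C,
    aeval_C]
  simp [pA, map_prod]

theorem natDegree_F {n : ℕ} (hn : 1 ≤ n) (a : Fin n → ℤ) (L S : ℤ) (hL : L ≠ 0) :
    ((C L * pA a + C S).map (Int.castRingHom ℚ)).natDegree = n := by
  rw [natDegree_map_eq_of_injective (RingHom.injective_int _), natDegree_add_C,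
    natDegree_C_mul hL, pA_natDegree]

theorem core (hCls : TaskCls) (hVal : TaskVal) (hLoc : TaskLoc) (hEmb : TaskEmb) (hMu : TaskMu)
    (hRed : TaskRed) (hWeil : TaskWeil) (hRoot : TaskRoot) (hSt : TaskSt) (hIrr : TaskIrr)
    (hDisc : TaskDisc) (hPl : TaskPl) {n k : ℕ} (hn : 2 ≤ n) (hk : 1 ≤ k) (D : Dat n k)
    (m N : ℕ) (hm : 2 ≤ m) (x y : ℝ) (hx : 1 ≤ x) (hxy : x < y) :
    ∃ (s t : ℤ) (K : Type) (_ : Field K) (_ : NumberField K), 0 < s ∧ x * s < t ∧
      (t : ℝ) < y * s ∧ Module.finrank ℚ K = n ∧ (N : ℤ) < |discr K| ∧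
      InfinitePlace.nrRealPlaces K =
        {X : ℝ | ∏ i, (X - (D.a i : ℝ)) = - ((s : ℝ) ^ m * D.c / ((t : ℝ) ^ m - (s : ℝ) ^ m))}.ncard ∧
      ∀ R, R + Units.rank K ≤ n + k - 1 →
        ∃ f : Multiplicative (Fin R → ZMod m) →* ClassGroup (𝓞 K), Function.Injective f := by
  obtain ⟨q₀, q₁, M, s₀, t₀, hM, hcop, hgood⟩ := exists_good hWeil hRoot D m N (by omega) hk hm
  obtain ⟨s, t, hs, ht, hs0, hst, hxs, hys⟩ := hSt M s₀ t₀ x y hM hcop hx hxy 0
  have hG := hgood s t hs ht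
  have hsR : (0 : ℝ) < s := by exact_mod_cast hs0
  have hslt : s < t := by
    have h1 : (s : ℝ) < t := by nlinarith
    exact_mod_cast h1
  obtain ⟨L, hL0, hLc, hcopL, hqL, hqL2, hqs, hsb, htb⟩ := good_arith hG hm hs0 hslt hst
  have hirr := hIrr n D.a L (s ^ m) q₀ (by omega) hG.hq₀ hqL hqL2 hqs hcopL
  obtain ⟨K, hK1, hK2, θ, hfr, hθ, hgen⟩ := exists_field _ hirr
  rw [natDegree_F (by omega) D.a L _ hL0.ne'] at hfr
  have hθ' := hθ
  rw [eval_F] at hθ'
  have hF : Fld D m s t L K θ := ⟨hLc, by push_cast at hθ'; exact hθ', hgen⟩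
  have htn : t ≠ 0 := (hs0.trans hslt).ne'
  have hpt := ne_pt hF hs0.ne' htn
  refine ⟨s, t, K, hK1, hK2, hs0, hxs, hys, hfr, ?_, ?_, ?_⟩
  · have h1 := hDisc K n D.a L (s ^ m) q₀ θ hn hfr hG.hq₀ hqL hqL2 hqs hθ' hgen
    have h2 : (q₀ : ℤ) ≤ |discr K| := Int.le_of_dvd (abs_pos.2 (discr_ne_zero K))
      ((dvd_abs _ _).2 h1)
    have h3 : (N : ℤ) < q₀ := by exact_mod_cast hG.hN
    linarith
  · rw [hPl K _ θ hirr hθ hgen]
    congr 1
    ext X
    simp only [Set.mem_setOf_eq]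
    rw [eval_F]
    have hL0' : (L : ℝ) ≠ 0 := by exact_mod_cast hL0.ne'
    have hc0 : (D.c : ℝ) ≠ 0 := by exact_mod_cast D.hc.ne'
    have h1 : (t : ℝ) ^ m - (s : ℝ) ^ m = L * D.c := by
      have : ((L * D.c : ℤ) : ℝ) = ((t ^ m - s ^ m : ℤ) : ℝ) := by rw [hLc]
      push_cast at this
      exact this.symm
    rw [h1]
    push_cast
    constructor
    · intro h
      field_simp
      linear_combination h
    · intro h
      rw [h]
      field_simp
      ring
  · intro R hR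
    obtain ⟨N', hN'⟩ : ∃ N', n + k = N' + 1 := ⟨n + k - 1, by omega⟩
    let σ : Fin (N' + 1) ≃ Fin n ⊕ Fin k := (finCongr hN'.symm).trans finSumFinEquiv.symm
    refine hCls K N' m R hm (by omega) (elt D σ θ hpt) ?_ ?_ ?_
    · intro i
      refine hVal K m _ (by omega) fun v => ?_
      exact hLoc n k D m s t L K θ (by omega) (by omega) hL0.ne' hs0.ne' htn hF hst hsb htb _ _ v
    · intro ℓ hℓ hℓm
      exact indep_of_tests hEmb hRed hfr (by omega) hL0.ne' hF hpt σ ℓ hℓ (hG.tests ℓ hℓ hℓm)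
    · intro ℓ hℓ hℓm
      have hx1 : Tst D m q₁ s t (D.b ⟨0, hk⟩) := by
        have hp : Prime (q₁ : ℤ) := Nat.prime_iff_prime_int.1 hG.hq₁
        refine ⟨hG.hq₁, hG.hc₁, ?_, ?_, ?_⟩
        · rw [D.hab, sub_self, mul_zero, sub_zero]
          exact Dvd.dvd.mul_right (dvd_pow hG.ht₁ (by omega)) _
        · intro h
          have h1 : (q₁ : ℤ) ∣ s ^ m := by
            have := (dvd_pow hG.ht₁ (show m ≠ 0 by omega)).sub h
            simpa using this
          have h2 := hp.dvd_of_dvd_pow h1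
          have h3 : (q₁ : ℤ) ∣ 1 := by
            have := h2.sub hG.hs₁
            simpa using this
          exact hp.not_isUnit (isUnit_of_dvd_one h3)
        · intro h
          exact hG.hbad (h.trans (dvd_bad D (Sum.inr ⟨0, hk⟩)))
      have hle : ℓ ≤ m := Nat.le_of_dvd (by omega) hℓm
      have hq1 : q₁ - 1 + 2 = q₁ + 1 := by have := hG.hq4; omega
      refine ⟨fun hℓ2 => ?_, fun hℓ2 => ?_⟩
      · refine no_zeta hEmb hMu hfr (by omega) hL0.ne' hF hG.hq₁ hx1 ?_ ?_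
        · intro h
          have := Nat.le_of_dvd hℓ.pos h
          have := hG.hqm'
          omega
        · intro h
          have h1 : ℓ ∣ q₁ + 1 := (hℓm.trans (Dvd.intro_left _ rfl)).trans hG.hqm
          rw [← hq1] at h1
          have h2 : ℓ ∣ 2 := (Nat.dvd_add_right h).1 h1
          exact hℓ2 ((Nat.prime_dvd_prime_iff_eq hℓ Nat.prime_two).1 h2)
      · refine no_zeta hEmb hMu hfr (by omega) hL0.ne' hF hG.hq₁ hx1 ?_ ?_
        · intro h
          have := Nat.le_of_dvd (by norm_num) h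
          have := hG.hq4
          omega
        · intro h
          have h1 : 4 ∣ q₁ + 1 := (Dvd.intro _ rfl).trans hG.hqm
          rw [← hq1] at h1
          have h2 : 4 ∣ 2 := (Nat.dvd_add_right h).1 h1
          norm_num at h2

end Pool.Agent.W289.CG
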