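import Pool.Agent.W289.CG.Stm

/-!
# Chinese remaindering of finitely many conditions
-/

set_option autoImplicit false

namespace Pool.Agent.W289.CG

/-- combine two congruence conditions -/
theorem crt2 {M M' s t s' t' : ℤ} (h : IsCoprime M M') (hs : IsCoprime s M)
    (hs' : IsCoprime s' M') :
    ∃ s₁ t₁ : ℤ, M ∣ s₁ - s ∧ M ∣ t₁ - t ∧ M' ∣ s₁ - s' ∧ M' ∣ t₁ - t' ∧
      IsCoprime s₁ (M * M') := by
  obtain ⟨u, v, huv⟩ := h
  have key : ∀ x y : ℤ, M ∣ (x * (v * M') + y * (u * M)) - x ∧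
      M' ∣ (x * (v * M') + y * (u * M)) - y := by
    intro x y
    refine ⟨⟨u * (y - x), ?_⟩, ⟨v * (x - y), ?_⟩⟩
    · have : v * M' = 1 - u * M := by linarith
      rw [this]; ring
    · have : u * M = 1 - v * M' := by linarith
      rw [this]; ring
  refine ⟨s * (v * M') + s' * (u * M), t * (v * M') + t' * (u * M), (key _ _).1, (key _ _).1,
    (key _ _).2, (key _ _).2, ?_⟩
  refine IsCoprime.mul_right ?_ ?_
  · obtain ⟨w, hw⟩ := (key s s').1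
    have : s * (v * M') + s' * (u * M) = s + M * w := by linarith
    rw [this]
    exact (IsCoprime.add_mul_left_left_iff).2 hs
  · obtain ⟨w, hw⟩ := (key s s').2
    have : s * (v * M') + s' * (u * M) = s' + M' * w := by linarith
    rw [this]
    exact (IsCoprime.add_mul_left_left_iff).2 hs'

theorem coprime_of_prime {q : ℕ} (hq : q.Prime) {M : ℤ} (h : ¬ (q : ℤ) ∣ M) :
    IsCoprime M (q : ℤ) := by
  have h1 : Prime (q : ℤ) := Nat.prime_iff_prime_int.1 hq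
  exact ((Prime.coprime_iff_not_dvd h1).2 h).symm

/-- finitely many tests can be satisfied simultaneously -/
theorem crt_tests {ι : Type} (P : ι → ℕ → ℤ → ℤ → Prop)
    (hP : ∀ (τ : ι) (q : ℕ) (s t s' t' : ℤ), (q : ℤ) ∣ s' - s → (q : ℤ) ∣ t' - t → P τ q s t → P τ q s' t')
    (T : List ι)
    (hT : ∀ τ ∈ T, ∀ Q : ℕ, ∃ q : ℕ, q.Prime ∧ Q < q ∧ ∃ s t : ℤ, ¬ (q : ℤ) ∣ s ∧ P τ q s t)
    (M₀ s₀ t₀ : ℤ) (hM₀ : 0 < M₀) (hs₀ : IsCoprime s₀ M₀) :
    ∃ M s t : ℤ, 0 < M ∧ M₀ ∣ M ∧ IsCoprime s M ∧ M₀ ∣ s - s₀ ∧ M₀ ∣ t - t₀ ∧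
      ∀ τ ∈ T, ∃ q : ℕ, q.Prime ∧ (q : ℤ) ∣ M ∧ P τ q s t := by
  induction T with
  | nil => exact ⟨M₀, s₀, t₀, hM₀, dvd_rfl, hs₀, by simp, by simp, by simp⟩
  | cons τ T ih =>
    obtain ⟨M, s, t, hM, hMM, hsM, hs, ht, hall⟩ := ih (fun τ' h => hT τ' (List.mem_cons_of_mem _ h))
    obtain ⟨q, hq, hMq, s', t', hs', hPq⟩ := hT τ (by simp) M.toNat
    have hqM : ¬ (q : ℤ) ∣ M := by
      intro h
      have := Int.le_of_dvd hM h
      omega
    obtain ⟨s₁, t₁, h1, h2, h3, h4, h5⟩ := crt2 (t := t) (t' := t') (coprime_of_prime hq hqM) hsM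
      (coprime_of_prime hq hs')
    refine ⟨M * q, s₁, t₁, mul_pos hM (by exact_mod_cast hq.pos), hMM.mul_right _, h5, ?_, ?_, ?_⟩
    · have := (hMM.trans h1).add hs
      simpa using this
    · have := (hMM.trans h2).add ht
      simpa using this
    · intro τ' hτ'
      rcases List.mem_cons.1 hτ' with rfl | h
      · exact ⟨q, hq, Dvd.intro_left _ rfl, hP _ _ _ _ _ _ h3 h4 hPq⟩
      · obtain ⟨q', hq', hqM', hP'⟩ := hall τ' h
        exact ⟨q', hq', hqM'.mul_right _, hP _ _ _ _ _ _ (hqM'.trans h1) (hqM'.trans h2) hP'⟩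

end Pool.Agent.W289.CG
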