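import Mathlib

/-!
# Statements for the project CG (class groups of fields of degree `n` with large `m`-rank)
-/

set_option autoImplicit false

namespace Pool.Agent.W289.CG

open Polynomial NumberField nonZeroDivisors

/-- the polynomial `∏ (X - a i)` -/
noncomputable def pA {R : Type} [CommRing R] {n : ℕ} (a : Fin n → R) : R[X] :=
  ∏ i, (X - C (a i))

/-- the data: distinct integers `a i`, distinct integers `b j` with `A(b j) = c > 0` where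
`A = ∏ (X - a i)`, `A'(b j) ≠ 0`, and every `b j` is smaller than some `a i` -/
structure Dat (n k : ℕ) where
  a : Fin n → ℤ
  b : Fin k → ℤ
  c : ℤ
  ha : Function.Injective a
  hb : Function.Injective b
  hc : 0 < c
  hab : ∀ j, (pA a).eval (b j) = c
  hder : ∀ j, (derivative (pA a)).eval (b j) ≠ 0
  hlt : ∀ j, ∃ i, b j < a i

/-- all the points `a i` and `b j` -/
def Dat.pt {n k : ℕ} (D : Dat n k) : Fin n ⊕ Fin k → ℤ := Sum.elim D.a D.b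

/-- the product of the numbers `A'(a i)` and `A'(b j)` -/
noncomputable def Dat.bad {n k : ℕ} (D : Dat n k) : ℤ :=
  ∏ x, (derivative (pA D.a)).eval (D.pt x)

/-- `L c = t ^ m - s ^ m`, `L A(θ) + s ^ m = 0`, `K = ℚ(θ)` -/
structure Fld {n k : ℕ} (D : Dat n k) (m : ℕ) (s t L : ℤ) (K : Type) [Field K] [NumberField K]
    (θ : K) : Prop where
  hL : L * D.c = t ^ m - s ^ m
  hθ : (L : K) * ∏ i, (θ - (D.a i : K)) + (s : K) ^ m = 0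
  gen : IntermediateField.adjoin ℚ {θ} = ⊤

/-- a prime `q` at which `L A + s ^ m` has the simple root `x` -/
structure Tst {n k : ℕ} (D : Dat n k) (m q : ℕ) (s t x : ℤ) : Prop where
  prime : q.Prime
  hc : ¬ (q : ℤ) ∣ D.c
  hF : (q : ℤ) ∣ t ^ m * (pA D.a).eval x - s ^ m * ((pA D.a).eval x - D.c)
  hL : ¬ (q : ℤ) ∣ t ^ m - s ^ m
  hd : ¬ (q : ℤ) ∣ (derivative (pA D.a)).eval x

/-- multiplicative independence modulo `ℓ`-th powers and the sign -/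
def Indep {K : Type} [Field K] {N : ℕ} (g : Fin N → Kˣ) (ℓ : ℕ) : Prop :=
  ∀ (e : Fin N → ℤ) (y : Kˣ), (∏ i, g i ^ e i = y ^ ℓ ∨ ∏ i, g i ^ e i = - y ^ ℓ) →
    ∀ i, (ℓ : ℤ) ∣ e i

/-! ## Tasks -/

/-- CG-GRP: abelian group theory -/
def TaskGrp : Prop :=
  ∀ (G : Type) [CommGroup G] (N m r R : ℕ), 2 ≤ m → R + r ≤ N → ∀ y : Fin N → G,
    (∀ i, y i ^ m = 1) →
    (∀ ℓ : ℕ, ℓ.Prime → ℓ ∣ m →
      {e : Fin N → ZMod ℓ | ∏ i, y i ^ ((m / ℓ) * (e i).val) = 1}.ncard ≤ ℓ ^ r) →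
    ∃ f : Multiplicative (Fin R → ZMod m) →* G, Function.Injective f

/-- CG-UNI: units modulo `ℓ`-th powers and the sign -/
def TaskUni : Prop :=
  ∀ (K : Type) [Field K] [NumberField K] (ℓ : ℕ), ℓ.Prime →
    (ℓ ≠ 2 → ¬ ∃ ζ : K, IsPrimitiveRoot ζ ℓ) → (ℓ = 2 → ¬ ∃ ζ : K, IsPrimitiveRoot ζ 4) →
    ∀ u : (𝓞 K)ˣ, ∃ (r : Fin (Units.rank K) → Fin ℓ) (v : (𝓞 K)ˣ),
      u = (∏ i, Units.fundSystem K i ^ (r i : ℕ)) * v ^ ℓ ∨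
      u = - ((∏ i, Units.fundSystem K i ^ (r i : ℕ)) * v ^ ℓ)

/-- CG-CLS: class groups from independent elements which are `m`-th powers of ideals -/
def TaskCls : Prop :=
  ∀ (K : Type) [Field K] [NumberField K] (N m R : ℕ), 2 ≤ m → R + Units.rank K ≤ N →
    ∀ g : Fin N → Kˣ,
    (∀ i, ∃ I : (FractionalIdeal (𝓞 K)⁰ K)ˣ, I ^ m = toPrincipalIdeal (𝓞 K) K (g i)) →
    (∀ ℓ : ℕ, ℓ.Prime → ℓ ∣ m → Indep g ℓ) →
    (∀ ℓ : ℕ, ℓ.Prime → ℓ ∣ m → (ℓ ≠ 2 → ¬ ∃ ζ : K, IsPrimitiveRoot ζ ℓ) ∧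
      (ℓ = 2 → ¬ ∃ ζ : K, IsPrimitiveRoot ζ 4)) →
    ∃ f : Multiplicative (Fin R → ZMod m) →* ClassGroup (𝓞 K), Function.Injective f

/-- CG-VAL: valuations divisible by `m` give `m`-th powers of ideals -/
def TaskVal : Prop :=
  ∀ (K : Type) [Field K] [NumberField K] (m : ℕ) (x : Kˣ), 1 ≤ m →
    (∀ v : IsDedekindDomain.HeightOneSpectrum (𝓞 K), ∃ z : ℤ,
      v.valuation K (x : K) = WithZero.exp ((m : ℤ) * z)) →
    ∃ I : (FractionalIdeal (𝓞 K)⁰ K)ˣ, I ^ m = toPrincipalIdeal (𝓞 K) K x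

/-- CG-LOC: the valuations of the ratios `(θ - p) / (θ - p')` -/
def TaskLoc : Prop :=
  ∀ (n k : ℕ) (D : Dat n k) (m : ℕ) (s t L : ℤ) (K : Type) [Field K] [NumberField K] (θ : K),
    1 ≤ n → 1 ≤ m → L ≠ 0 → s ≠ 0 → t ≠ 0 → Fld D m s t L K θ → IsCoprime s t →
    IsCoprime s D.bad → IsCoprime t D.bad →
    ∀ p p' : Fin n ⊕ Fin k, ∀ v : IsDedekindDomain.HeightOneSpectrum (𝓞 K), ∃ z : ℤ,
      v.valuation K ((θ - (D.pt p : K)) / (θ - (D.pt p' : K))) = WithZero.exp ((m : ℤ) * z)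

/-- CG-EMB: embeddings in `ℚ_q` -/
def TaskEmb : Prop :=
  ∀ (n k : ℕ) (D : Dat n k) (m : ℕ) (s t L : ℤ) (K : Type) [Field K] [NumberField K] (θ : K)
    (q : ℕ) [Fact q.Prime] (x : ℤ), Module.finrank ℚ K = n → 1 ≤ n → L ≠ 0 →
    Fld D m s t L K θ → Tst D m q s t x →
    ∃ (φ : K →+* ℚ_[q]) (z : ℤ_[q]), φ θ = (z : ℚ_[q]) ∧ PadicInt.toZMod z = (x : ZMod q)

/-- CG-MU: roots of unity of order prime to `q` in `ℚ_q` -/
def TaskMu : Prop :=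
  ∀ (q : ℕ) [Fact q.Prime] (d : ℕ), ¬ q ∣ d → (∃ ζ : ℚ_[q], IsPrimitiveRoot ζ d) → d ∣ q - 1

/-- CG-RED: reduction of `±` powers modulo `q` -/
def TaskRed : Prop :=
  ∀ (K : Type) [Field K] (q : ℕ) [Fact q.Prime] (ℓ N : ℕ) (θ : K) (c : Fin N → ℤ)
    (φ : K →+* ℚ_[q]) (z : ℤ_[q]) (x : ZMod q), ℓ.Prime → φ θ = (z : ℚ_[q]) →
    PadicInt.toZMod z = x → (∀ i, x ≠ (c i : ZMod q)) →
    ∀ (e : Fin N → ℤ) (e' : Fin N → ℕ) (y : K), (∀ i, (ℓ : ℤ) ∣ e i - (e' i : ℤ)) →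
    (∏ i, (θ - (c i : K)) ^ e i = y ^ ℓ ∨ ∏ i, (θ - (c i : K)) ^ e i = - y ^ ℓ) →
    ∃ y' : ZMod q, ∏ i, (x - (c i : ZMod q)) ^ e' i = y' ^ ℓ ∨
      ∏ i, (x - (c i : ZMod q)) ^ e' i = - y' ^ ℓ

/-- CG-WEIL: existence of the test points modulo a large prime (Weil's bound) -/
def TaskWeil : Prop :=
  ∀ (n k m : ℕ), 1 ≤ n → 2 ≤ m → ∃ Q : ℕ, ∀ (q : ℕ) [Fact q.Prime], Q ≤ q → 2 * m ∣ q - 1 →
    ∀ (a : Fin n → ZMod q) (b : Fin k → ZMod q) (c β : ZMod q),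
    Function.Injective a → Function.Injective b → c ≠ 0 →
    (∀ j, (pA a).eval (b j) = c) → (∀ j, (derivative (pA a)).eval (b j) ≠ 0) →
    (pA a).eval β = c → (derivative (pA a)).eval β ≠ 0 → (∀ j, β ≠ b j) →
    ∀ ℓ : ℕ, ℓ.Prime → ℓ ∣ m → ∀ h : Fin n ⊕ Fin k → ℕ, (∃ p, ¬ ℓ ∣ h p) →
    ∃ x u : ZMod q, (pA a).eval x ≠ 0 ∧ (pA a).eval x ≠ c ∧ (derivative (pA a)).eval x ≠ 0 ∧
      u ≠ 0 ∧ (pA a).eval x = u ^ m * ((pA a).eval x - c) ∧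
      ∀ y : ZMod q, ∏ p, (x - Sum.elim a b p) ^ h p ≠ y ^ ℓ ∧
        ∏ p, (x - Sum.elim a b p) ^ h p ≠ - y ^ ℓ

/-- CG-ROOT: primes `q ≡ 1` mod `M` with a further simple root of `A - c` -/
def TaskRoot : Prop :=
  ∀ (n k : ℕ) (D : Dat n k) (M Q : ℕ), 1 ≤ n → 1 ≤ k → 1 ≤ M →
    ∃ q : ℕ, q.Prime ∧ Q < q ∧ M ∣ q - 1 ∧
      ∃ β : ℤ, (q : ℤ) ∣ (pA D.a).eval β - D.c ∧
        ¬ (q : ℤ) ∣ (derivative (pA D.a)).eval β ∧ ∀ j, ¬ (q : ℤ) ∣ β - D.b j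

/-- CG-ST: choice of `s` and `t` -/
def TaskSt : Prop :=
  ∀ (M s₀ t₀ : ℤ) (x y : ℝ), 0 < M → IsCoprime s₀ M → 1 ≤ x → x < y → ∀ B : ℤ,
    ∃ s t : ℤ, M ∣ s - s₀ ∧ M ∣ t - t₀ ∧ B < s ∧ IsCoprime s t ∧ x * s < t ∧ (t : ℝ) < y * s

/-- CG-IRR: irreducibility -/
def TaskIrr : Prop :=
  ∀ (n : ℕ) (a : Fin n → ℤ) (L S : ℤ) (q : ℕ), 1 ≤ n → q.Prime → (q : ℤ) ∣ L →
    ¬ (q : ℤ) ^ 2 ∣ L → ¬ (q : ℤ) ∣ S → IsCoprime L S →
    Irreducible ((C L * pA a + C S).map (Int.castRingHom ℚ))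

/-- CG-DISC: the prime `q` divides the discriminant -/
def TaskDisc : Prop :=
  ∀ (K : Type) [Field K] [NumberField K] (n : ℕ) (a : Fin n → ℤ) (L S : ℤ) (q : ℕ) (θ : K),
    2 ≤ n → Module.finrank ℚ K = n → q.Prime → (q : ℤ) ∣ L → ¬ (q : ℤ) ^ 2 ∣ L →
    ¬ (q : ℤ) ∣ S → (L : K) * ∏ i, (θ - (a i : K)) + (S : K) = 0 →
    IntermediateField.adjoin ℚ {θ} = ⊤ → (q : ℤ) ∣ discr K

/-- CG-PL: real places and real roots -/
def TaskPl : Prop :=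
  ∀ (K : Type) [Field K] [NumberField K] (f : ℚ[X]) (θ : K), Irreducible f → aeval θ f = 0 →
    IntermediateField.adjoin ℚ {θ} = ⊤ →
    InfinitePlace.nrRealPlaces K = {x : ℝ | aeval x f = 0}.ncard

/-- CG-REAL1: few real roots -/
def TaskReal1 : Prop :=
  ∀ (n : ℕ) (a : Fin n → ℤ), 1 ≤ n → Function.Injective a →
    ∃ B : ℝ, ∀ v : ℝ, B < v → {x : ℝ | ∏ i, (x - (a i : ℝ)) = - v}.ncard = n % 2

/-- CG-REAL2: only real roots -/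
def TaskReal2 : Prop :=
  ∀ (n : ℕ) (a : Fin n → ℤ), 1 ≤ n → Function.Injective a →
    ∀ v : ℝ, 0 < v → v * 3 ^ n < 1 → {x : ℝ | ∏ i, (x - (a i : ℝ)) = - v}.ncard = n

/-- CG-SMALL: the ideal solutions of the Prouhet-Tarry-Escott problem -/
def TaskSmall : Prop :=
  ∀ n : ℕ, (n = 2 ∨ n = 3 ∨ n = 4 ∨ n = 5 ∨ n = 6 ∨ n = 7 ∨ n = 8 ∨ n = 9 ∨ n = 10 ∨ n = 12) →
    Nonempty (Dat n (n - 1))

/-- CG-GEN: three equal values in every degree -/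
def TaskGen : Prop := ∀ n : ℕ, 12 ≤ n → Nonempty (Dat n 3)

/-- the main theorem for given data -/
def Main : Prop :=
  ∀ (n k : ℕ), 2 ≤ n → 1 ≤ k → Nonempty (Dat n k) → ∀ (m N : ℕ), 2 ≤ m →
    (∃ (K : Type) (_ : Field K) (_ : NumberField K), Module.finrank ℚ K = n ∧
      InfinitePlace.nrRealPlaces K = n % 2 ∧ (N : ℤ) < |discr K| ∧
      ∃ f : Multiplicative (Fin (n / 2 + k) → ZMod m) →* ClassGroup (𝓞 K),
        Function.Injective f) ∧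
    (∃ (K : Type) (_ : Field K) (_ : NumberField K), Module.finrank ℚ K = n ∧
      InfinitePlace.nrRealPlaces K = n ∧ (N : ℤ) < |discr K| ∧
      ∃ f : Multiplicative (Fin k → ZMod m) →* ClassGroup (𝓞 K), Function.Injective f)

end Pool.Agent.W289.CG
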