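import Pool.Agent.W289.CG.Asm
import Pool.Agent.W240.CG.Grp
import Pool.Agent.W125.CG.Uni
import Pool.Agent.W930.CG.Cls
import Pool.Agent.W64.CG.Val
import Pool.Agent.W405.CG.Loc
import Pool.Agent.W290.CG.Emb
import Pool.Agent.W349.CG.Mu
import Pool.Agent.W349.CG.Weil
import Pool.Agent.W505.CG.Root
import Pool.Agent.W505.CG.St
import Pool.Agent.W505.CG.Irr
import Pool.Agent.W505.CG.Disc
import Pool.Agent.W240.CG.Real
import Pool.Agent.W21.CG.Small
import Pool.Agent.W460.CG.Gen

/-!
# The main theorem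
-/

set_option autoImplicit false

namespace Pool.Agent.W289.CG

theorem main : Main :=
  main_of (W930.CG.cls W240.CG.grp W125.CG.uni) W64.CG.val W405.CG.loc W290.CG.emb W349.CG.mu
    W349.CG.red W349.CG.WeilT.main W505.CG.root W505.CG.st W505.CG.irr W505.CG.disc W240.CG.pl
    W240.CG.real1 W240.CG.real2

/-- forget some of the `b j` -/
def Dat.restrict {n k k' : ℕ} (D : Dat n k) (h : k' ≤ k) : Dat n k' where
  a := D.a
  b := fun j => D.b (Fin.castLE h j)
  c := D.c
  ha := D.ha
  hb := fun i j hij => by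
    have := D.hb hij
    exact (Fin.castLE_injective h) this
  hc := D.hc
  hab := fun j => D.hab _
  hder := fun j => D.hder _
  hlt := fun j => D.hlt _

theorem dat3 (n : ℕ) (hn : 4 ≤ n) : Nonempty (Dat n 3) := by
  rcases Nat.lt_or_ge n 12 with h | h
  · by_cases h11 : n = 11
    · subst h11
      exact W21.CG.eleven
    · obtain ⟨D⟩ := W21.CG.small n (by omega)
      exact ⟨D.restrict (by omega)⟩
  · exact W460.CG.gen n h

end Pool.Agent.W289.CG
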