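import Pool.Agent.W289.CG.Test

/-!
# Independence of the elements `(θ - p) / (θ - p')`
-/

set_option autoImplicit false

namespace Pool.Agent.W289.CG

open Polynomial NumberField nonZeroDivisors

variable {n k : ℕ} {D : Dat n k} {m : ℕ} {s t L : ℤ} {K : Type} [Field K] [NumberField K] {θ : K}

theorem ne_pt (hF : Fld D m s t L K θ) (hs : s ≠ 0) (ht : t ≠ 0)
    (p : Fin n ⊕ Fin k) : θ - (D.pt p : K) ≠ 0 := by
  intro h
  have hθ := hF.hθ
  rcases p with i | j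
  · rw [Finset.prod_eq_zero (Finset.mem_univ i) h, mul_zero, zero_add] at hθ
    exact pow_ne_zero m (Int.cast_ne_zero.2 hs) hθ
  · have h1 : θ = (D.b j : K) := sub_eq_zero.1 h
    have h2 := D.hab j
    rw [eval_pA] at h2
    have h3 : ∏ i, (θ - (D.a i : K)) = (D.c : K) := by
      rw [h1, ← h2]
      push_cast
      rfl
    rw [h3] at hθ
    have h4 : ((L * D.c + s ^ m : ℤ) : K) = 0 := by push_cast; exact hθ
    rw [hF.hL] at h4
    have h5 : ((t ^ m : ℤ) : K) = 0 := by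
      rw [← h4]; congr 1; ring
    exact pow_ne_zero m ht (Int.cast_injective (α := K) (by rw [h5, Int.cast_zero]))

theorem zpow_sum' {F ι : Type} [Field F] (x : F) (hx : x ≠ 0) (S : Finset ι) (e : ι → ℤ) :
    ∏ i ∈ S, x ^ e i = x ^ ∑ i ∈ S, e i := by
  classical
  induction S using Finset.induction_on with
  | empty => simp
  | insert i S hi ih => rw [Finset.prod_insert hi, Finset.sum_insert hi, zpow_add₀ hx, ih]

/-- the elements -/
noncomputable def elt {N : ℕ} (D : Dat n k) (σ : Fin (N + 1) ≃ Fin n ⊕ Fin k) (θ : K)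
    (h : ∀ p, θ - (D.pt p : K) ≠ 0) (i : Fin N) : Kˣ :=
  Units.mk0 ((θ - (D.pt (σ i.succ) : K)) / (θ - (D.pt (σ 0) : K)))
    (div_ne_zero (h _) (h _))

omit [NumberField K] in
theorem prod_elt {N : ℕ} (σ : Fin (N + 1) ≃ Fin n ⊕ Fin k)
    (h : ∀ p, θ - (D.pt p : K) ≠ 0) (e : Fin N → ℤ) :
    ((∏ i, elt D σ θ h i ^ e i : Kˣ) : K) =
      ∏ i, (θ - (D.pt (σ i) : K)) ^ (Fin.cons (- ∑ i, e i) e : Fin (N + 1) → ℤ) i := by
  rw [Fin.prod_univ_succ]
  simp only [Fin.cons_zero, Fin.cons_succ]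
  rw [Units.coe_prod]
  simp only [Units.val_zpow_eq_zpow_val, elt, Units.val_mk0, div_zpow, Finset.prod_div_distrib]
  rw [zpow_neg, zpow_sum' _ (h _), div_eq_mul_inv, mul_comm]

/-- independence follows from the tests -/
theorem indep_of_tests (hE : TaskEmb) (hR : TaskRed) {N : ℕ} (hK : Module.finrank ℚ K = n)
    (hn : 1 ≤ n) (hL : L ≠ 0) (hF : Fld D m s t L K θ)
    (hpt : ∀ p, θ - (D.pt p : K) ≠ 0) (σ : Fin (N + 1) ≃ Fin n ⊕ Fin k) (ℓ : ℕ) (hℓ : ℓ.Prime)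
    (hT : ∀ h : Fin n ⊕ Fin k → ℕ, (∀ p, h p < ℓ) → (∃ p, ¬ ℓ ∣ h p) →
      ∃ q : ℕ, q.Prime ∧ PT D m (ℓ, h) q s t) :
    Indep (elt D σ θ hpt) ℓ := by
  intro e y hy i₀
  by_contra hi₀
  set E : Fin (N + 1) → ℤ := Fin.cons (- ∑ i, e i) e with hE'
  have hℓ0 : (ℓ : ℤ) ≠ 0 := by exact_mod_cast hℓ.ne_zero
  have hℓpos : (0 : ℤ) < ℓ := by exact_mod_cast hℓ.pos
  set e' : Fin (N + 1) → ℕ := fun i => (E i % ℓ).toNat with he'
  have hmod : ∀ i, ((e' i : ℕ) : ℤ) = E i % ℓ := fun i => by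
    rw [he']
    exact Int.toNat_of_nonneg (Int.emod_nonneg _ hℓ0)
  obtain ⟨q, hq, x, hx, hxp, hxy⟩ := hT (fun p => e' (σ.symm p))
    (fun p => by
      have h1 := hmod (σ.symm p)
      have h2 := Int.emod_lt_of_pos (E (σ.symm p)) hℓpos
      show e' (σ.symm p) < ℓ
      omega)
    ⟨σ i₀.succ, by
      show ¬ ℓ ∣ e' (σ.symm (σ i₀.succ))
      rw [Equiv.symm_apply_apply]
      intro h
      apply hi₀
      have h1 := hmod i₀.succ
      have h2 : (ℓ : ℤ) ∣ E i₀.succ % ℓ := by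
        rw [← h1]; exact_mod_cast h
      have h3 : (ℓ : ℤ) ∣ E i₀.succ := by
        have h4 := (Int.dvd_self_sub_emod (x := E i₀.succ) (m := (ℓ : ℤ))).add h2
        simpa using h4
      simpa [hE'] using h3⟩
  have : Fact q.Prime := ⟨hq⟩
  obtain ⟨φ, z, hφ, hz⟩ := hE n k D m s t L K θ q x hK hn hL hF hx
  have hpe := prod_elt (D := D) σ hpt e
  obtain ⟨y', hy'⟩ := hR K q ℓ (N + 1) θ (fun i => D.pt (σ i)) φ z x hℓ hφ hz
    (fun i h => hxp (σ i) (by
      rw [← zmod_iff]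
      push_cast
      exact sub_eq_zero.2 h)) E e' (y : K)
    (fun i => by
      rw [hmod]
      exact Int.dvd_self_sub_emod)
    (by
      rcases hy with h | h
      · left
        rw [← hpe, h]
        simp
      · right
        rw [← hpe, h]
        simp)
  have h5 : ∏ p, ((x : ZMod q) - (D.pt p : ZMod q)) ^ e' (σ.symm p) =
      ∏ i, ((x : ZMod q) - (D.pt (σ i) : ZMod q)) ^ e' i := by
    rw [← Equiv.prod_comp σ]
    refine Finset.prod_congr rfl fun i _ => ?_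
    rw [Equiv.symm_apply_apply]
  have h6 := hxy y'
  simp only [h5] at h6
  rcases hy' with h | h
  · exact h6.1 h
  · exact h6.2 h

/-- no roots of unity -/
theorem no_zeta (hE : TaskEmb) (hMu : TaskMu) (hK : Module.finrank ℚ K = n)
    (hn : 1 ≤ n) (hL : L ≠ 0) (hF : Fld D m s t L K θ) {q d : ℕ} (hq : q.Prime) {x : ℤ}
    (hx : Tst D m q s t x) (hqd : ¬ q ∣ d) (hd : ¬ d ∣ q - 1) : ¬ ∃ ζ : K, IsPrimitiveRoot ζ d := by
  rintro ⟨ζ, hζ⟩
  have : Fact q.Prime := ⟨hq⟩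
  obtain ⟨φ, z, hφ, hz⟩ := hE n k D m s t L K θ q x hK hn hL hF hx
  exact hd (hMu q d hqd ⟨φ ζ, hζ.map_of_injective φ.injective⟩)

end Pool.Agent.W289.CG
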