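import Pool.Agent.W289.CG.Crt

/-!
# Existence of the test primes
-/

set_option autoImplicit false

namespace Pool.Agent.W289.CG

open Polynomial

theorem pA_map {R S : Type} [CommRing R] [CommRing S] {n : ℕ} (a : Fin n → R) (f : R →+* S) :
    (pA a).map f = pA (fun i => f (a i)) := by
  simp [pA, Polynomial.map_prod]

theorem eval_pA {R : Type} [CommRing R] {n : ℕ} (a : Fin n → R) (x : R) :
    (pA a).eval x = ∏ i, (x - a i) := by
  simp [pA, eval_prod]

theorem pA_monic {R : Type} [CommRing R] {n : ℕ} (a : Fin n → R) : (pA a).Monic :=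
  monic_prod_of_monic _ _ fun _ _ => monic_X_sub_C _

theorem pA_natDegree {R : Type} [CommRing R] [Nontrivial R] {n : ℕ} (a : Fin n → R) :
    (pA a).natDegree = n := by
  rw [pA, natDegree_prod_of_monic _ _ fun _ _ => monic_X_sub_C _]
  simp

theorem eval_cast {q n : ℕ} (a : Fin n → ℤ) (x : ℤ) :
    (pA (fun i => (a i : ZMod q))).eval (x : ZMod q) = (((pA a).eval x : ℤ) : ZMod q) := by
  have := pA_map a (Int.castRingHom (ZMod q))
  simp only [eq_intCast] at this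
  rw [← this, eval_intCast_map]
  simp

theorem eval_der_cast {q n : ℕ} (a : Fin n → ℤ) (x : ℤ) :
    (derivative (pA (fun i => (a i : ZMod q)))).eval (x : ZMod q) =
      (((derivative (pA a)).eval x : ℤ) : ZMod q) := by
  have := pA_map a (Int.castRingHom (ZMod q))
  simp only [eq_intCast] at this
  rw [← this, derivative_map, eval_intCast_map]
  simp

theorem der_a {n : ℕ} (a : Fin n → ℤ) (ha : Function.Injective a) (i : Fin n) :
    (derivative (pA a)).eval (a i) ≠ 0 := by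
  have h : pA a = Lagrange.nodal Finset.univ a := rfl
  rw [h, Lagrange.eval_nodal_derivative_eval_node_eq (Finset.mem_univ i), Lagrange.eval_nodal]
  refine Finset.prod_ne_zero_iff.2 fun l hl => ?_
  rw [Finset.mem_erase] at hl
  exact sub_ne_zero.2 fun h => hl.1 (ha h).symm

theorem bad_ne {n k : ℕ} (D : Dat n k) : D.bad ≠ 0 := by
  refine Finset.prod_ne_zero_iff.2 fun x _ => ?_
  rcases x with i | j
  · exact der_a D.a D.ha i
  · exact D.hder j

theorem dvd_bad {n k : ℕ} (D : Dat n k) (x : Fin n ⊕ Fin k) :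
    (derivative (pA D.a)).eval (D.pt x) ∣ D.bad :=
  Finset.dvd_prod_of_mem _ (Finset.mem_univ x)

/-- reduction of an integer divisibility to the congruence -/
theorem zmod_iff {q : ℕ} (x : ℤ) : (x : ZMod q) = 0 ↔ (q : ℤ) ∣ x :=
  ZMod.intCast_zmod_eq_zero_iff_dvd x q

theorem Tst.congr {n k : ℕ} {D : Dat n k} {m q : ℕ} {s t x s' t' : ℤ} (h : Tst D m q s t x)
    (hs : (q : ℤ) ∣ s' - s) (ht : (q : ℤ) ∣ t' - t) : Tst D m q s' t' x := by
  have h1 : ((s' : ℤ) : ZMod q) = s := by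
    have := (zmod_iff (q := q) _).2 hs
    push_cast at this
    exact sub_eq_zero.1 this
  have h2 : ((t' : ℤ) : ZMod q) = t := by
    have := (zmod_iff (q := q) _).2 ht
    push_cast at this
    exact sub_eq_zero.1 this
  refine ⟨h.prime, h.hc, ?_, ?_, h.hd⟩
  · have := h.hF
    rw [← zmod_iff] at this ⊢
    push_cast at this ⊢
    rw [h1, h2]; exact this
  · have := h.hL
    rw [← zmod_iff] at this ⊢
    push_cast at this ⊢
    rw [h1, h2]; exact this

/-- the test number `τ` -/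
def PT {n k : ℕ} (D : Dat n k) (m : ℕ) (τ : ℕ × (Fin n ⊕ Fin k → ℕ)) (q : ℕ) (s t : ℤ) : Prop :=
  ∃ x : ℤ, Tst D m q s t x ∧ (∀ p, ¬ (q : ℤ) ∣ x - D.pt p) ∧
    ∀ y : ZMod q, ∏ p, ((x : ZMod q) - (D.pt p : ZMod q)) ^ τ.2 p ≠ y ^ τ.1 ∧
      ∏ p, ((x : ZMod q) - (D.pt p : ZMod q)) ^ τ.2 p ≠ - y ^ τ.1

theorem not_dvd_of_lt {q : ℕ} {Z : ℤ} (hZ : Z ≠ 0) (h : Z.natAbs < q) : ¬ (q : ℤ) ∣ Z := by
  intro h1
  have h2 := Int.natAbs_dvd_natAbs.2 h1
  simp only [Int.natAbs_natCast] at h2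
  exact absurd (Nat.le_of_dvd (Int.natAbs_pos.2 hZ) h2) (by omega)

theorem exists_test (hW : TaskWeil) (hR : TaskRoot) {n k : ℕ} (D : Dat n k) (m : ℕ) (hn : 1 ≤ n)
    (hk : 1 ≤ k) (hm : 2 ≤ m) (τ : ℕ × (Fin n ⊕ Fin k → ℕ)) (hτ : τ.1.Prime) (hτm : τ.1 ∣ m)
    (hτp : ∃ p, ¬ τ.1 ∣ τ.2 p) (Q : ℕ) :
    ∃ q : ℕ, q.Prime ∧ Q < q ∧ ∃ s t : ℤ, ¬ (q : ℤ) ∣ s ∧ PT D m τ q s t := by
  classical
  obtain ⟨Q₁, hQ₁⟩ := hW n k m hn hm
  set Z : ℤ := D.c * D.bad * (∏ i, ∏ l ∈ Finset.univ.erase i, (D.a i - D.a l)) *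
    (∏ i, ∏ l ∈ Finset.univ.erase i, (D.b i - D.b l)) with hZ
  have hZ0 : Z ≠ 0 := by
    have h1 : D.c ≠ 0 := D.hc.ne'
    have h2 := bad_ne D
    have h3 : (∏ i, ∏ l ∈ Finset.univ.erase i, (D.a i - D.a l)) ≠ 0 := by
      refine Finset.prod_ne_zero_iff.2 fun i _ => Finset.prod_ne_zero_iff.2 fun l hl => ?_
      rw [Finset.mem_erase] at hl
      exact sub_ne_zero.2 fun h => hl.1 (D.ha h).symm
    have h4 : (∏ i, ∏ l ∈ Finset.univ.erase i, (D.b i - D.b l)) ≠ 0 := by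
      refine Finset.prod_ne_zero_iff.2 fun i _ => Finset.prod_ne_zero_iff.2 fun l hl => ?_
      rw [Finset.mem_erase] at hl
      exact sub_ne_zero.2 fun h => hl.1 (D.hb h).symm
    exact mul_ne_zero (mul_ne_zero (mul_ne_zero h1 h2) h3) h4
  obtain ⟨q, hq, hqQ, hqM, β, hβ, hβd, hβb⟩ := hR n k D (2 * m) (Q + Q₁ + Z.natAbs) hn hk (by omega)
  have : Fact q.Prime := ⟨hq⟩
  have hqZ : ¬ (q : ℤ) ∣ Z := not_dvd_of_lt hZ0 (by omega)
  have hqc : ¬ (q : ℤ) ∣ D.c := fun h => hqZ (by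
    rw [hZ]; exact Dvd.dvd.mul_right (Dvd.dvd.mul_right (Dvd.dvd.mul_right h _) _) _)
  have hqbad : ¬ (q : ℤ) ∣ D.bad := fun h => hqZ (by
    rw [hZ]; exact Dvd.dvd.mul_right (Dvd.dvd.mul_right (Dvd.dvd.mul_left h _) _) _)
  have hqa : ∀ i l, i ≠ l → ¬ (q : ℤ) ∣ D.a i - D.a l := fun i l hil h => hqZ (by
    rw [hZ]
    refine Dvd.dvd.mul_right (Dvd.dvd.mul_left ?_ _) _
    exact (h.trans (Finset.dvd_prod_of_mem (fun l => D.a i - D.a l)
      (Finset.mem_erase.2 ⟨hil.symm, Finset.mem_univ l⟩))).trans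
      (Finset.dvd_prod_of_mem (fun i => ∏ l ∈ Finset.univ.erase i, (D.a i - D.a l))
        (Finset.mem_univ i)))
  have hqb : ∀ i l, i ≠ l → ¬ (q : ℤ) ∣ D.b i - D.b l := fun i l hil h => hqZ (by
    rw [hZ]
    refine Dvd.dvd.mul_left ?_ _
    exact (h.trans (Finset.dvd_prod_of_mem (fun l => D.b i - D.b l)
      (Finset.mem_erase.2 ⟨hil.symm, Finset.mem_univ l⟩))).trans
      (Finset.dvd_prod_of_mem (fun i => ∏ l ∈ Finset.univ.erase i, (D.b i - D.b l))
        (Finset.mem_univ i)))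
  have hpA : ∀ x : ℤ, (pA (fun i => (D.a i : ZMod q))).eval (x : ZMod q) =
      (((pA D.a).eval x : ℤ) : ZMod q) := fun x => eval_cast D.a x
  have hdA : ∀ x : ℤ, (derivative (pA (fun i => (D.a i : ZMod q)))).eval (x : ZMod q) =
      (((derivative (pA D.a)).eval x : ℤ) : ZMod q) := fun x => eval_der_cast D.a x
  obtain ⟨x, u, hx1, hx2, hx3, hu, hxu, hy⟩ := hQ₁ q (by omega) hqM (fun i => (D.a i : ZMod q))
    (fun j => (D.b j : ZMod q)) (D.c : ZMod q) (β : ZMod q)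
    (by
      intro i l hil
      by_contra hne
      refine hqa i l hne ?_
      rw [← zmod_iff]
      push_cast
      exact sub_eq_zero.2 hil)
    (by
      intro i l hil
      by_contra hne
      refine hqb i l hne ?_
      rw [← zmod_iff]
      push_cast
      exact sub_eq_zero.2 hil)
    (by rw [Ne, zmod_iff]; exact hqc)
    (by
      intro j
      rw [hpA, D.hab j])
    (by
      intro j
      rw [hdA, Ne, zmod_iff]
      exact fun h => hqbad (h.trans (dvd_bad D (Sum.inr j))))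
    (by
      rw [hpA]
      have := (zmod_iff (q := q) _).2 hβ
      push_cast at this
      exact sub_eq_zero.1 this)
    (by rw [hdA, Ne, zmod_iff]; exact hβd)
    (by
      intro j h
      refine hβb j ?_
      rw [← zmod_iff]
      push_cast
      exact sub_eq_zero.2 h)
    τ.1 hτ hτm τ.2 hτp
  obtain ⟨x, rfl⟩ := ZMod.intCast_surjective x
  obtain ⟨u, rfl⟩ := ZMod.intCast_surjective u
  rw [hpA] at hx1 hx2 hxu
  rw [hdA] at hx3
  have hcz : ((D.c : ℤ) : ZMod q) ≠ 0 := by rw [Ne, zmod_iff]; exact hqc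
  refine ⟨q, hq, by omega, u, 1, ?_, x, ⟨hq, hqc, ?_, ?_, ?_⟩, ?_, ?_⟩
  · rw [← zmod_iff]; exact hu
  · rw [← zmod_iff]
    push_cast
    rw [one_pow, one_mul, ← hxu, sub_self]
  · rw [← zmod_iff]
    push_cast
    intro h
    have h1 : (u : ZMod q) ^ m = 1 := by
      rw [one_pow] at h
      exact (sub_eq_zero.1 h).symm
    rw [h1, one_mul] at hxu
    exact hcz (by linear_combination hxu)
  · rw [← zmod_iff]; exact hx3
  · intro p hp
    rw [← zmod_iff] at hp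
    push_cast at hp
    rcases p with i | j
    · apply hx1
      rw [← hpA, eval_pA]
      exact Finset.prod_eq_zero (Finset.mem_univ i) hp
    · apply hx2
      have h1 : (x : ZMod q) = (D.b j : ZMod q) := sub_eq_zero.1 hp
      rw [← hpA, h1, hpA, D.hab j]
  · intro y
    have h1 := hy y
    have h2 : ∀ p, Sum.elim (fun i => (D.a i : ZMod q)) (fun j => (D.b j : ZMod q)) p =
        (D.pt p : ZMod q) := by
      intro p
      rcases p with i | j <;> rfl
    simp only [h2] at h1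
    exact h1

theorem PT.congr {n k : ℕ} {D : Dat n k} {m : ℕ} (τ : ℕ × (Fin n ⊕ Fin k → ℕ)) (q : ℕ)
    (s t s' t' : ℤ) (hs : (q : ℤ) ∣ s' - s) (ht : (q : ℤ) ∣ t' - t) (h : PT D m τ q s t) :
    PT D m τ q s' t' := by
  obtain ⟨x, h1, h2, h3⟩ := h
  exact ⟨x, h1.congr hs ht, h2, h3⟩

end Pool.Agent.W289.CG
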